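import Pool.Agent.H12.UCR.Stmts3

set_option autoImplicit false

open MeasureTheory Filter Topology

namespace Pool.UCR

theorem ces_thm : CESS := by
  intro c n0 P hP hper
  have hT : ∀ N, n0 ≤ N → ∑ i ∈ Finset.range P, c (N + i) = ∑ i ∈ Finset.range P, c (n0 + i) := by
    intro N hN
    induction N, hN using Nat.le_induction with
    | base => rfl
    | succ N hN ih =>
      have h1 := Finset.sum_range_succ (fun i => c (N + i)) P
      have h2 := Finset.sum_range_succ' (fun i => c (N + i)) P
      have h3 : ∑ i ∈ Finset.range P, c (N + (i + 1)) = ∑ i ∈ Finset.range P, c (N + 1 + i) :=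
        Finset.sum_congr rfl fun i _ => by rw [show N + (i + 1) = N + 1 + i by ring]
      rw [h1, h3, hper N hN, add_zero] at h2
      rw [← ih]
      exact (add_right_cancel h2).symm
  obtain ⟨A, hA⟩ : ∃ A : ℂ, A = (P : ℂ)⁻¹ * ∑ i ∈ Finset.range P, c (n0 + i) := ⟨_, rfl⟩
  have hPA : (P : ℂ) * A = ∑ i ∈ Finset.range P, c (n0 + i) := by
    have hP0 : (P : ℂ) ≠ 0 := by exact_mod_cast (by omega : P ≠ 0)
    rw [hA, mul_inv_cancel_left₀ hP0]
  let D : ℕ → ℂ := fun N => ∑ n ∈ Finset.range N, c n - N * A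
  have hD : ∀ N, n0 ≤ N → D (N + P) = D N := by
    intro N hN
    have e := Finset.sum_range_add c N P
    simp only [D]
    rw [e, hT N hN, ← hPA]
    push_cast
    ring
  obtain ⟨B, hB⟩ : ∃ B : ℝ, ∀ N, ‖D N‖ ≤ B := by
    refine ⟨∑ n ∈ Finset.range (n0 + P), ‖D n‖, ?_⟩
    intro N
    induction N using Nat.strong_induction_on with
    | _ N ih =>
      by_cases h : N < n0 + P
      · exact Finset.single_le_sum (f := fun n => ‖D n‖) (fun _ _ => norm_nonneg _)
          (Finset.mem_range.2 h)
      · have h1 := hD (N - P) (by omega)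
        rw [show N - P + P = N by omega] at h1
        rw [h1]
        exact ih (N - P) (by omega)
  refine ⟨A, ?_⟩
  have h0 : Tendsto (fun N : ℕ => (N : ℂ)⁻¹ * D N) atTop (𝓝 0) := by
    refine squeeze_zero_norm (a := fun N : ℕ => B / N) ?_ (tendsto_const_div_atTop_nhds_zero_nat B)
    intro N
    rw [norm_mul, norm_inv, Complex.norm_natCast, div_eq_inv_mul]
    exact mul_le_mul_of_nonneg_left (hB N) (by positivity)
  have h1 : Tendsto (fun N : ℕ => A + (N : ℂ)⁻¹ * D N) atTop (𝓝 (A + 0)) := h0.const_add A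
  rw [add_zero] at h1
  refine h1.congr' ?_
  filter_upwards [eventually_ge_atTop 1] with N hN
  have hN0 : (N : ℂ) ≠ 0 := by exact_mod_cast (by omega : N ≠ 0)
  simp only [D]
  field_simp
  ring

end Pool.UCR
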