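import Pool.Agent.H12.UCR.Stmts4

set_option autoImplicit false

open MeasureTheory Filter Topology

namespace Pool.UCR

theorem dec_fract (x : ℝ) : ((x : ℝ) : UnitAddCircle) = ((Int.fract x : ℝ) : UnitAddCircle) := by
  have h : x = Int.fract x + (⌊x⌋ : ℝ) := (Int.fract_add_floor x).symm
  have h0 : (((⌊x⌋ : ℤ) : ℝ) : UnitAddCircle) = 0 :=
    (AddCircle.coe_eq_zero_iff (1 : ℝ)).2 ⟨⌊x⌋, by simp⟩
  conv_lhs => rw [h]
  rw [AddCircle.coe_add, h0, add_zero]

theorem dec_thm (h1 : FJXS) (h2 : WEYS) (h3 : IRRS) (h4 : SUBS) : DECS := by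
  intro p q s κ hp hq hMI hs0 hs1 hb k hk
  have hp1 : (1 : ℝ) < p := by exact_mod_cast (by omega : 1 < p)
  have hq1 : (1 : ℝ) < q := by exact_mod_cast (by omega : 1 < q)
  have hlp : 0 < Real.log p := Real.log_pos hp1
  have hlq : 0 < Real.log q := Real.log_pos hq1
  have hk0 : (1 : ℝ) ≤ k := by exact_mod_cast hk
  obtain ⟨θ, hθ⟩ : ∃ θ : ℝ, θ = Real.log q / Real.log p := ⟨_, rfl⟩
  obtain ⟨c, hc⟩ : ∃ c : ℝ, c = Real.log k / Real.log p := ⟨_, rfl⟩
  have hθ0 : 0 < θ := by rw [hθ]; positivity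
  have hc0 : 0 ≤ c := by
    rw [hc]
    exact div_nonneg (Real.log_nonneg hk0) hlp.le
  have hθI : Irrational θ := by rw [hθ]; exact h3 p q hp hq hMI
  have hlog : ∀ n : ℕ, Real.log ((k * q ^ n : ℕ) : ℝ) / Real.log p = n * θ + c := by
    intro n
    have hq0 : (q : ℝ) ^ n ≠ 0 := by positivity
    push_cast
    rw [Real.log_mul (by linarith) hq0, Real.log_pow, hθ, hc]
    field_simp
    ring
  obtain ⟨ρ, hρ⟩ : ∃ ρ : ℝ, ρ = √(1 - 2 * s * (1 - s)) := ⟨_, rfl⟩
  have hρ0 : 0 ≤ ρ := by rw [hρ]; exact Real.sqrt_nonneg _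
  have hρ1 : ρ < 1 := by
    rw [hρ, Real.sqrt_lt' one_pos]
    have : 0 < s * (1 - s) := mul_pos hs0 (by linarith)
    nlinarith
  have hpow : Tendsto (fun J : ℕ => 2 * (p : ℝ) * ρ ^ J) atTop (𝓝 0) := by
    have := (tendsto_pow_atTop_nhds_zero_of_lt_one hρ0 hρ1).const_mul (2 * (p : ℝ))
    simpa using this
  refine tendsto_order.2 ⟨fun a ha => Eventually.of_forall fun N => ha.trans_le ?_, fun a ha => ?_⟩
  · exact mul_nonneg (by positivity) (Finset.sum_nonneg fun _ _ => norm_nonneg _)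
  · obtain ⟨J, hJ⟩ := (hpow.eventually (gt_mem_nhds ha)).exists
    obtain ⟨F, hF1, hF2⟩ := h1 p s hp hs0.le hs1.le J
    rw [← hρ] at hF2
    have hW := h2 θ c hθI F
    let n₁ : ℕ := ⌈(J : ℝ) / θ⌉₊
    have hn1 : ∀ n : ℕ, n₁ ≤ n → ‖fc κ (k * q ^ n)‖ ≤ F ((n * θ + c : ℝ) : UnitAddCircle) := by
      intro n hn
      have hJn : (J : ℝ) ≤ n * θ := by
        have e1 : (J : ℝ) / θ ≤ n := (Nat.le_ceil _).trans (by exact_mod_cast hn)
        rwa [div_le_iff₀ hθ0] at e1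
      have hpos : 1 ≤ k * q ^ n := Nat.one_le_iff_ne_zero.2 (by positivity)
      have h5 := h4 p s κ hp hs0.le hs1.le hb (k * q ^ n) J hpos (by
        rw [hlog n]
        linarith)
      rw [hlog n] at h5
      rw [dec_fract, hF1 _ (Int.fract_nonneg _) (Int.fract_lt_one _)]
      exact h5
    obtain ⟨C, hC⟩ : ∃ C : ℝ, C = ∑ n ∈ Finset.range n₁,
        (‖fc κ (k * q ^ n)‖ + |F ((n * θ + c : ℝ) : UnitAddCircle)|) := ⟨_, rfl⟩
    have hsum : ∀ N : ℕ, ∑ n ∈ Finset.range N, ‖fc κ (k * q ^ n)‖ ≤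
        ∑ n ∈ Finset.range N, F ((n * θ + c : ℝ) : UnitAddCircle) + C := by
      intro N
      have e1 : ∀ n ∈ Finset.range N, ‖fc κ (k * q ^ n)‖ ≤ F ((n * θ + c : ℝ) : UnitAddCircle) +
          (if n < n₁ then ‖fc κ (k * q ^ n)‖ + |F ((n * θ + c : ℝ) : UnitAddCircle)| else 0) := by
        intro n _
        by_cases h : n < n₁
        · rw [if_pos h]
          have := neg_abs_le (F ((n * θ + c : ℝ) : UnitAddCircle))
          linarith
        · rw [if_neg h, add_zero]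
          exact hn1 n (not_lt.1 h)
      refine (Finset.sum_le_sum e1).trans ?_
      rw [Finset.sum_add_distrib]
      refine add_le_add_right ?_ _
      rw [← Finset.sum_filter, hC]
      refine Finset.sum_le_sum_of_subset_of_nonneg ?_ fun _ _ _ => by positivity
      intro n hn
      exact Finset.mem_range.2 (Finset.mem_filter.1 hn).2
    have hCl : Tendsto (fun N : ℕ => (N : ℝ)⁻¹ * C) atTop (𝓝 0) := by
      have := (tendsto_inv_atTop_nhds_zero_nat (𝕜 := ℝ)).mul_const C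
      simpa using this
    have hS := hW.add hCl
    rw [add_zero] at hS
    have hlt : ∫ x, F x ∂(volume : Measure UnitAddCircle) < a := hF2.trans_lt hJ
    filter_upwards [hS.eventually (gt_mem_nhds hlt)] with N hN
    refine lt_of_le_of_lt ?_ hN
    rw [← mul_add]
    exact mul_le_mul_of_nonneg_left (hsum N) (by positivity)

end Pool.UCR
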