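import Pool.Agent.H12.UCR.Stmts3

set_option autoImplicit false

open MeasureTheory Filter Topology

namespace Pool.UCR

theorem nrd_fc_le {p : ℕ} (μ : PP p) (j : ℕ) : ‖fc μ j‖ ≤ 1 := by
  unfold fc
  have h := norm_integral_le_of_norm_le_const (μ := ((μ.1 : ProbabilityMeasure UnitAddCircle) :
    Measure UnitAddCircle)) (f := fun x : UnitAddCircle => fourier (j : ℤ) x) (C := 1)
    (Eventually.of_forall fun x => by
      rw [fourier_apply]
      exact (Circle.norm_coe _).le)
  have e : (((μ.1 : ProbabilityMeasure UnitAddCircle) : Measure UnitAddCircle)).real Set.univ = 1 :=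
    probReal_univ
  rw [e, mul_one] at h
  exact h

theorem nrd_thm (h1 : CTFS) (h2 : NBHS) (h3 : DNSS) (h4 : CESS) (h5 : EVPS) (h6 : MIXS) :
    NRDS := by
  intro p q k M hp hq hk ρ hρ Φ
  constructor
  · have hc : ∀ N : ℕ, Continuous (fun μ : PP p => ‖Av q k N (fc μ)‖) := by
      intro N
      unfold Av
      exact (continuous_const.mul (continuous_finset_sum _ fun n _ => h1 p (k * q ^ n))).norm
    have hset : {μ : PP p | ∃ N0 : ℕ, M ≤ N0 ∧
        ∀ N : ℕ, N0 ≤ N → N ≤ Φ N0 → ρ N < ‖Av q k N (fc μ)‖} =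
        ⋃ N0 : ℕ, ⋃ _ : M ≤ N0, ⋂ N ∈ Finset.Icc N0 (Φ N0),
          {μ : PP p | ρ N < ‖Av q k N (fc μ)‖} := by
      ext μ
      simp only [Set.mem_iUnion, Set.mem_iInter, Finset.mem_Icc, exists_prop]
      constructor
      · rintro ⟨N0, hN0, h⟩
        exact ⟨N0, hN0, fun N hN => h N hN.1 hN.2⟩
      · rintro ⟨N0, hN0, h⟩
        exact ⟨N0, hN0, fun N ha hb => h N ⟨ha, hb⟩⟩
    rw [hset]
    refine isOpen_iUnion fun N0 => isOpen_iUnion fun _ => ?_
    exact isOpen_biInter_finset fun N _ => isOpen_lt continuous_const (hc N)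
  · rw [dense_iff_inter_open]
    intro W hW hWne
    obtain ⟨L, a, hL, μ0, hμ0, hfc⟩ := h3 p hp W hW hWne
    obtain ⟨m, η, hη, hnb⟩ := h2 p μ0 W hW hμ0
    obtain ⟨n0, P, hP, hper⟩ := h5 p q L a k hp hL
    obtain ⟨A, hA⟩ := h4 (fun n => S p L a (k * q ^ n)) n0 P hP hper
    obtain ⟨t, ht0, ht1, htη, htA⟩ : ∃ t : ℝ, 0 < t ∧ t < 1 ∧ t < η / 2 ∧
        (1 - t : ℂ) * A + t ≠ 0 := by
      obtain ⟨s, hs⟩ : ∃ s : ℝ, s = min (η / 3) (1 / 2) := ⟨_, rfl⟩
      have hs0 : 0 < s := by rw [hs]; exact lt_min (by linarith) (by norm_num)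
      have hs1 : s ≤ 1 / 2 := by rw [hs]; exact min_le_right _ _
      have hs2 : s ≤ η / 3 := by rw [hs]; exact min_le_left _ _
      by_cases hz : (1 - s : ℂ) * A + s = 0
      · refine ⟨s / 2, by linarith, by linarith, by linarith, ?_⟩
        intro hz2
        push_cast at hz2
        have hA1 : (s : ℂ) * (1 - A) = 0 := by linear_combination 2 * hz - 2 * hz2
        have hsC : (s : ℂ) ≠ 0 := by exact_mod_cast hs0.ne'
        have hA2 : A = 1 := by
          rcases mul_eq_zero.1 hA1 with h | h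
          · exact absurd h hsC
          · exact (sub_eq_zero.1 h).symm
        rw [hA2] at hz
        have : (1 : ℂ) = 0 := by linear_combination hz
        exact one_ne_zero this
      · exact ⟨s, hs0, by linarith, by linarith, hz⟩
    obtain ⟨ν, hν⟩ := h6 p μ0 t ht0.le ht1.le
    have hνW : ν ∈ W := by
      apply hnb
      intro j _
      rw [hν j]
      have e : (1 - t : ℂ) * fc μ0 j + t - fc μ0 j = (t : ℂ) * (1 - fc μ0 j) := by ring
      rw [e, norm_mul, Complex.norm_real, Real.norm_eq_abs, abs_of_pos ht0]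
      have h7 : ‖1 - fc μ0 j‖ ≤ 2 := by
        have h8 := norm_sub_le (1 : ℂ) (fc μ0 j)
        have h9 := nrd_fc_le μ0 j
        rw [norm_one] at h8
        linarith
      nlinarith
    have hlim : Tendsto (fun N : ℕ => Av q k N (fc ν)) atTop (𝓝 ((1 - t : ℂ) * A + t)) := by
      have h7 := (hA.const_mul (1 - t : ℂ)).add_const (t : ℂ)
      refine h7.congr' ?_
      filter_upwards [eventually_ge_atTop 1] with N hN
      have hN0 : (N : ℂ) ≠ 0 := by exact_mod_cast (by omega : N ≠ 0)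
      unfold Av
      have e : ∑ n ∈ Finset.range N, fc ν (k * q ^ n) =
          (1 - t : ℂ) * ∑ n ∈ Finset.range N, S p L a (k * q ^ n) + N * t := by
        rw [Finset.mul_sum, Finset.sum_congr rfl fun n _ => (by rw [hν, hfc] :
          fc ν (k * q ^ n) = (1 - t : ℂ) * S p L a (k * q ^ n) + t), Finset.sum_add_distrib,
          Finset.sum_const, Finset.card_range, nsmul_eq_mul]
      rw [e]
      field_simp
    have hpos : 0 < ‖(1 - t : ℂ) * A + t‖ := norm_pos_iff.2 htA
    have hev := hρ.eventually_lt hlim.norm hpos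
    obtain ⟨N1, hN1⟩ := eventually_atTop.1 hev
    exact ⟨ν, hνW, max M N1, le_max_left _ _, fun N ha _ => hN1 N ((le_max_right _ _).trans ha)⟩

end Pool.UCR
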