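import Pool.Agent.H12.UCR.Stmts4

set_option autoImplicit false

open MeasureTheory Filter Topology

namespace Pool.UCR

theorem sub_thm (h1 : PHNS) : SUBS := by
  intro p s κ hp hs0 hs1 hb m J hm hJ
  have hp1 : (1 : ℝ) < p := by exact_mod_cast (by omega : 1 < p)
  have hp0 : (0 : ℝ) < p := by linarith
  have hlp : 0 < Real.log p := Real.log_pos hp1
  have hm0 : (0 : ℝ) < m := by exact_mod_cast (by omega : 0 < m)
  obtain ⟨x, hx⟩ : ∃ x : ℝ, x = Real.log m / Real.log p := ⟨_, rfl⟩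
  rw [← hx] at hJ ⊢
  have hx0 : 0 ≤ x := (Nat.cast_nonneg J).trans hJ
  have hpx : (p : ℝ) ^ x = m := by
    rw [Real.rpow_def_of_pos hp0, hx, mul_div_cancel₀ _ hlp.ne', Real.exp_log hm0]
  have hBJ : J ≤ ⌊x⌋₊ := Nat.le_floor hJ
  have hfr : x = (⌊x⌋₊ : ℝ) + Int.fract x := by
    have h2 : ((⌊x⌋₊ : ℕ) : ℝ) = ((⌊x⌋ : ℤ) : ℝ) := natCast_floor_eq_intCast_floor hx0
    rw [h2]
    exact (Int.floor_add_fract x).symm
  obtain ⟨B, hB⟩ : ∃ B : ℕ, B = ⌊x⌋₊ := ⟨_, rfl⟩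
  rw [← hB] at hBJ hfr
  have hm' : (m : ℝ) = (p : ℝ) ^ B * (p : ℝ) ^ (Int.fract x) := by
    rw [← hpx]
    conv_lhs => rw [hfr]
    rw [Real.rpow_add hp0, Real.rpow_natCast]
  have hterm : ∀ j, j < B → (m : ℝ) / (p : ℝ) ^ (B - j) = (p : ℝ) ^ j * (p : ℝ) ^ (Int.fract x) := by
    intro j hj
    have hpB : (p : ℝ) ^ B = (p : ℝ) ^ j * (p : ℝ) ^ (B - j) := by
      rw [← pow_add, Nat.add_sub_cancel' hj.le]
    rw [hm', div_eq_iff (by positivity), hpB]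
    ring
  have hrefl : ∏ i ∈ Finset.range B, ‖ph s ((m : ℝ) / (p : ℝ) ^ (i + 1))‖ =
      ∏ j ∈ Finset.range B, ‖ph s ((p : ℝ) ^ j * (p : ℝ) ^ (Int.fract x))‖ := by
    rw [← Finset.prod_range_reflect]
    refine Finset.prod_congr rfl fun j hj => ?_
    rw [Finset.mem_range] at hj
    rw [← hterm j hj, show B - 1 - j + 1 = B - j by omega]
  calc ‖fc κ m‖ ≤ ∏ i ∈ Finset.range B, ‖ph s ((m : ℝ) / (p : ℝ) ^ (i + 1))‖ := hb m B
    _ = ∏ j ∈ Finset.range B, ‖ph s ((p : ℝ) ^ j * (p : ℝ) ^ (Int.fract x))‖ := hrefl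
    _ = ∏ j ∈ Finset.range (J + (B - J)),
        ‖ph s ((p : ℝ) ^ j * (p : ℝ) ^ (Int.fract x))‖ := by rw [Nat.add_sub_cancel' hBJ]
    _ = (∏ j ∈ Finset.range J, ‖ph s ((p : ℝ) ^ j * (p : ℝ) ^ (Int.fract x))‖) *
        ∏ j ∈ Finset.range (B - J), ‖ph s ((p : ℝ) ^ (J + j) * (p : ℝ) ^ (Int.fract x))‖ :=
      Finset.prod_range_add _ _ _
    _ ≤ (∏ j ∈ Finset.range J, ‖ph s ((p : ℝ) ^ j * (p : ℝ) ^ (Int.fract x))‖) * 1 :=
      mul_le_mul_of_nonneg_left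
        (Finset.prod_le_one (fun _ _ => norm_nonneg _) fun _ _ => (h1 s _ hs0 hs1).2.1)
        (Finset.prod_nonneg fun _ _ => norm_nonneg _)
    _ = _ := mul_one _

end Pool.UCR
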